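import Pool.Agent.AVG.Ball

/-!
# Steady Navier-Stokes D-solutions and their mean values over large balls

A steady Navier-Stokes field which vanishes at infinity and has a finite Dirichlet integral is
zero if, for ONE sequence of radii `R → ∞`, all its mean values over balls of radius `R` are at
most `C / R`. Cancellations are allowed, nothing is assumed at the other scales. The same holds
for every averaging kernel, and along lacunary sequences the bound may grow slowly.
-/

open MeasureTheory Set Filter Topology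
open scoped ContDiff

namespace Pool.Agent.Results.MP_227466_an.BallMeans

/-- Euclidean three space. -/
abbrev R3 := EuclideanSpace ℝ (Fin 3)

/-- The derivative `∂ f / ∂ x_j`. -/
noncomputable def pd (j : Fin 3) (f : R3 → ℝ) : R3 → ℝ :=
  fun x => fderiv ℝ f x (EuclideanSpace.single j (1 : ℝ))

/-- `(v, p)` solves the steady incompressible Navier-Stokes system on `ℝ³` with viscosity `ν`:
`div v = 0` and `- ν Δ v + (v · ∇) v + ∇ p = 0`. -/
structure SteadyNS (ν : ℝ) (v : R3 → R3) (p : R3 → ℝ) : Prop where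
  divFree : ∀ x, ∑ j, pd j (fun y => v y j) x = 0
  momentum : ∀ x i, -ν * ∑ j, pd j (pd j (fun y => v y i)) x +
    ∑ j, v x j * pd j (fun y => v y i) x + pd i p x = 0

/-- All first derivatives of `v` are square integrable (finite Dirichlet integral). -/
def FiniteDirichlet (v : R3 → R3) : Prop :=
  ∀ i j, MemLp (pd i (fun y => v y j)) 2 volume

/-- Averaging kernels: integrable, with integrable first moment and integral one (not
necessarily positive or radial). -/
structure Kernel (κ : R3 → ℝ) : Prop where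
  int : Integrable κ
  mom : Integrable (fun y => ‖y‖ * κ y)
  one : ∫ y, κ y = 1

/-- The average `∫ κ(y) v(x - R y) dy` at scale `R`. -/
noncomputable def avg (κ : R3 → ℝ) (R : ℝ) (v : R3 → R3) (x : R3) : R3 :=
  ∫ y, κ y • v (x - R • y)

/-- Radii with `R_{n+1} ≥ 2 R_n > 0` and constants `C_n ≥ 1` with `∑ C_n⁻² = ∞`. -/
structure Scales (R C : ℕ → ℝ) : Prop where
  pos : ∀ n, 0 < R n
  gap : ∀ n, 2 * R n ≤ R (n + 1)
  one : ∀ n, 1 ≤ C n
  div : ¬ Summable fun n => 1 / C n ^ 2

/-- Let `v` be a steady Navier-Stokes field which tends to zero at infinity and has a finite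
Dirichlet integral. Then `v = 0` in each of the following cases:

* for some `C` and arbitrarily large `R` all mean values of `v` over balls of radius `R` have
  norm at most `C / R`;
* the same with the averages `∫ κ(y) v(x - R y) dy` for some averaging kernel `κ`;
* for some radii `R_{n+1} ≥ 2 R_n > 0` and constants `C_n ≥ 1` with `∑ C_n⁻² = ∞` all mean
  values over balls of radius `R_n` have norm at most `C_n / R_n` (for example `C_n = C √n`). -/
theorem result {ν : ℝ} (hν : 0 < ν) (v : R3 → R3) (p : R3 → ℝ) (hv : ContDiff ℝ 2 v)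
    (hp : Differentiable ℝ p) (hNS : SteadyNS ν v p) (h1 : Tendsto v (cocompact R3) (𝓝 0))
    (h2 : FiniteDirichlet v) :
    (∀ C : ℝ, (∃ᶠ R : ℝ in atTop, ∀ x, ‖⨍ y in Metric.ball x R, v y‖ ≤ C / R) →
      ∀ x, v x = 0) ∧
    (∀ κ : R3 → ℝ, Kernel κ → ∀ C : ℝ,
      (∃ᶠ R : ℝ in atTop, ∀ x, ‖avg κ R v x‖ ≤ C / R) → ∀ x, v x = 0) ∧
    (∀ R C : ℕ → ℝ, Scales R C →
      (∀ n x, ‖⨍ y in Metric.ball x (R n), v y‖ ≤ C n / R n) → ∀ x, v x = 0) := by
  have hNS' : SNS.SteadyNS ν v p := ⟨hNS.divFree, hNS.momentum⟩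
  have h2' : ∀ i j, MemLp (SNS.G v i j) 2 (volume : Measure SNS.E) := fun i j => (h2 i j).ofReal
  refine ⟨fun C hA => ?_, fun κ hκ C hA => ?_, fun R C hRC hA => ?_⟩
  · refine SNS.AVG.liouville hν hv hp hNS' h1 h2' SNS.AVG.bk_ker2.toKer (C := C) ?_
    refine (hA.and_eventually (eventually_gt_atTop (0 : ℝ))).mono fun R hR x => ?_
    rw [SNS.AVG.bk_average v hR.2 x]
    exact hR.1 x
  · have hk : SNS.AVG.Ker κ := by
      refine ⟨hκ.int, ?_, hκ.one⟩
      have h3 := hκ.mom.norm
      simpa only [norm_mul, norm_norm] using h3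
    exact SNS.AVG.liouville hν hv hp hNS' h1 h2' hk hA
  · refine SNS.AVG.liouville2 hν hv hp hNS' h1 h2' SNS.AVG.bk_ker2 hRC.pos hRC.gap hRC.one
      hRC.div fun n x => ?_
    rw [SNS.AVG.bk_average v (hRC.pos n) x]
    exact hA n x

end Pool.Agent.Results.MP_227466_an.BallMeans
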