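import Pool.Agent.SNS.TRI6

/-!
# Steady Navier-Stokes D-solutions with few low frequency triads

A steady Navier-Stokes field which vanishes at infinity and has a finite Dirichlet integral is
zero if, near the origin, its spectrum carries few triads `x + y = τ`. In particular it is zero
if the spectrum has volume `O(r⁴)` in the ball of radius `r`, if near the origin it lies in
finitely many parabolic layers around planes, or if it lies in a cusp of order `5/4` around a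
line.
-/

open MeasureTheory Set Filter Topology
open scoped ContDiff RealInnerProductSpace

namespace Pool.Agent.Results.MP_227466_an.FewTriads

/-- Euclidean three space. -/
abbrev R3 := EuclideanSpace ℝ (Fin 3)

/-- Complex three space with its Hermitian norm. -/
abbrev C3 := EuclideanSpace ℂ (Fin 3)

/-- The derivative `∂ f / ∂ x_j`. -/
noncomputable def pd (j : Fin 3) (f : R3 → ℝ) : R3 → ℝ :=
  fun x => fderiv ℝ f x (EuclideanSpace.single j (1 : ℝ))

/-- `(v, p)` solves the steady incompressible Navier-Stokes system on `ℝ³` with viscosity `ν`: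
`div v = 0` and `- ν Δ v + (v · ∇) v + ∇ p = 0`. -/
structure SteadyNS (ν : ℝ) (v : R3 → R3) (p : R3 → ℝ) : Prop where
  divFree : ∀ x, ∑ j, pd j (fun y => v y j) x = 0
  momentum : ∀ x i, -ν * ∑ j, pd j (pd j (fun y => v y i)) x +
    ∑ j, v x j * pd j (fun y => v y i) x + pd i p x = 0

/-- All first derivatives of `v` are square integrable (finite Dirichlet integral). -/
def FiniteDirichlet (v : R3 → R3) : Prop :=
  ∀ i j, MemLp (pd i (fun y => v y j)) 2 volume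

/-- The character `exp (2 π i x · ξ)`. -/
noncomputable def ch (x ξ : R3) : ℂ :=
  Complex.exp (2 * Real.pi * Complex.I * ∑ j, (x j : ℂ) * (ξ j : ℂ))

/-- `V` is the Fourier transform of `v`: it is integrable and
`v_j(x) = ∫ V_j(ξ) exp (2 π i x · ξ) dξ` for all `x`. -/
def IsSpectrum (v : R3 → R3) (V : R3 → C3) : Prop :=
  Integrable V ∧ ∀ x j, (v x j : ℂ) = ∫ ξ, V ξ j * ch x ξ

/-- The density `|ξ|² |V(ξ)|²` of the Dirichlet integral. -/
noncomputable def energy (V : R3 → C3) (ξ : R3) : ℝ := ‖ξ‖ ^ 2 * ‖V ξ‖ ^ 2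

/-- `∫_{|ξ| < k} |ξ|² |V|²` -/
noncomputable def low (V : R3 → C3) (k : ℝ) : ℝ := ∫ ξ in {ξ | ‖ξ‖ < k}, energy V ξ

/-- `∫_{|ξ| ≥ k} |ξ|² |V|²` -/
noncomputable def high (V : R3 → C3) (k : ℝ) : ℝ := ∫ ξ in {ξ | k ≤ ‖ξ‖}, energy V ξ

/-- The weight of the triads `x + y = τ` with `x, y ∈ S`, `|x| < k`: the integral of
`sin² ∠(x, y) / |x|²` over these `x`. -/
noncomputable def triads (S : Set R3) (k : ℝ) (τ : R3) : ℝ :=
  ∫ x in {x : R3 | ‖x‖ < k ∧ x ∈ S ∧ τ - x ∈ S},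
    Real.sin (InnerProductGeometry.angle x (τ - x)) ^ 2 / ‖x‖ ^ 2

/-- `k² triads(k, τ) ≤ M² |τ|⁴` for all `τ ∈ S` with `|τ| ≥ k`. -/
def Weight (S : Set R3) (k M : ℝ) : Prop :=
  ∀ τ ∈ S, k ≤ ‖τ‖ → k ^ 2 * triads S k τ ≤ M ^ 2 * ‖τ‖ ^ 4

/-- Along some sequence `k → 0+`: `k² triads(k, τ) ≤ C |τ|⁴` for all `τ ∈ S` with
`k ≤ |τ| < δ`. -/
def Few (S : Set R3) : Prop :=
  ∃ C δ : ℝ, 0 < δ ∧ ∃ᶠ k : ℝ in 𝓝[>] 0, ∀ τ ∈ S, k ≤ ‖τ‖ → ‖τ‖ < δ →
    k ^ 2 * triads S k τ ≤ C * ‖τ‖ ^ 4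

/-- The volume of `S` in the ball of radius `r` is at most `C r⁴`, `r` small. -/
def Thin (S : Set R3) : Prop :=
  ∃ C δ : ℝ, 0 < δ ∧ ∀ r : ℝ, 0 < r → r < δ →
    volume (S ∩ Metric.ball (0 : R3) r) ≤ ENNReal.ofReal (C * r ^ 4)

/-- Near the origin `S` lies in finitely many parabolic layers `|e · x| ≤ C |x|²`. -/
def Layers (S : Set R3) : Prop :=
  ∃ (n : ℕ) (e : Fin n → R3) (C δ : ℝ), (∀ i, e i ≠ 0) ∧ 0 < δ ∧
    ∀ x ∈ S, ‖x‖ < δ → ∃ i, |⟪e i, x⟫| ≤ C * ‖x‖ ^ 2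

/-- Near the origin `S` lies in a cusp `sin ∠(x, e) ≤ C |x|^{1/4}` around a line. -/
def Cusp (S : Set R3) : Prop :=
  ∃ e : R3, e ≠ 0 ∧ ∃ C δ : ℝ, 0 < δ ∧ ∀ x ∈ S, ‖x‖ < δ →
    Real.sin (InnerProductGeometry.angle x e) ≤ C * ‖x‖ ^ (1 / 4 : ℝ)

/-- Let `v` be a steady Navier-Stokes field which tends to zero at infinity and has a finite
Dirichlet integral. It has a Fourier transform `V` (integrable, unique a.e.), `|ξ|² |V|²` is
integrable, and for every measurable set `S`: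

* if `V = 0` a.e. outside `S`, then `ν² high(k) ≤ M² low(k) high(k/2)` whenever
  `k² triads(k, τ) ≤ M² |τ|⁴` for all `τ ∈ S` with `|τ| ≥ k`;
* if `V = 0` a.e. outside `S` near the origin, and `S` has few triads, or is thin, or lies in
  finitely many parabolic layers, or in a cusp of order `5/4` around a line, then `v = 0`. -/
theorem result {ν : ℝ} (hν : 0 < ν) (v : R3 → R3) (p : R3 → ℝ) (hv : ContDiff ℝ 2 v)
    (hp : Differentiable ℝ p) (hNS : SteadyNS ν v p) (h1 : Tendsto v (cocompact R3) (𝓝 0))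
    (h2 : FiniteDirichlet v) :
    (∃ V, IsSpectrum v V) ∧ ∀ V, IsSpectrum v V → Integrable (energy V) ∧
      ∀ S : Set R3, MeasurableSet S →
        ((∀ᵐ ξ, ξ ∉ S → V ξ = 0) → ∀ k M : ℝ, 0 < k → 0 ≤ M → Weight S k M →
          ν ^ 2 * high V k ≤ M ^ 2 * low V k * high V (k / 2)) ∧
        (∀ ε : ℝ, 0 < ε → (∀ᵐ ξ, ‖ξ‖ < ε → ξ ∉ S → V ξ = 0) →
          Few S ∨ Thin S ∨ Layers S ∨ Cusp S → ∀ x, v x = 0) := by
  have hNS' : SNS.SteadyNS ν v p := ⟨hNS.divFree, hNS.momentum⟩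
  have h2' : ∀ i j, MemLp (SNS.G v i j) 2 (volume : Measure SNS.E) := fun i j => (h2 i j).ofReal
  have hch : ∀ (W : R3 → ℂ) (x : R3), FourierTransformInv.fourierInv W x = ∫ ξ, W ξ * ch x ξ := by
    intro W x
    rw [Real.fourierInv_eq']
    refine integral_congr_ae (Eventually.of_forall fun ξ => ?_)
    simp only [smul_eq_mul]
    rw [mul_comm]
    congr 1
    unfold ch
    congr 1
    rw [PiLp.inner_apply]
    simp only [RCLike.inner_apply, conj_trivial]
    push_cast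
    ring
  have htw : ∀ (S : Set R3) (k : ℝ) (τ : R3), SNS.TRI.tw S k τ = triads S k τ := by
    intro S k τ
    unfold SNS.TRI.tw triads SNS.TRI.wt SNS.TRI.sn
    rfl
  refine ⟨?_, fun V hV => ?_⟩
  · obtain ⟨V, hV, -, hinv⟩ := SNS.FIN.exists_spectrum hν hv hp hNS' h1 h2'
    exact ⟨V, hV.int, fun x j => by rw [hinv j x, hch]⟩
  · have hV' : ∀ j x, (v x j : ℂ) = FourierTransformInv.fourierInv (fun ξ => V ξ j) x :=
      fun j x => by rw [hV.2 x j, hch]
    have hd := SNS.FIN.dens_ae hν hv hp hNS' h1 h2' hV.1 hV'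
    refine ⟨SNS.FIN.en_integrable h2' hd, fun S hS => ⟨fun hVS k M hk hM hw => ?_,
      fun ε hε hVS h => ?_⟩⟩
    · exact SNS.TRI.bound hν hv hp hNS' h1 h2' hV.1 hV' hk hM hS hVS fun τ hτ hkτ => by
        rw [htw]; exact hw τ hτ hkτ
    · have hF : SNS.TRI.Few S := by
        rcases h with ⟨C, δ, hδ, hf⟩ | h | h | ⟨e, he, C, δ, hδ, hf⟩
        · refine ⟨C, δ, hδ, hf.mono fun k hk τ hτ h3 h4 => ?_⟩
          rw [htw]; exact hk τ hτ h3 h4
        · exact SNS.TRI.Thin.few hS h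
        · exact SNS.TRI.Thin.few hS (SNS.TRI.Layers.thin h)
        · refine SNS.TRI.Cusp.few hS ⟨e, he, C, δ, hδ, fun x hx hxδ => ?_⟩
          unfold SNS.TRI.sn
          exact hf x hx hxδ
      exact SNS.TRI.liouville hν hv hp hNS' h1 h2' hV.1 hV' hS hε hVS hF

end Pool.Agent.Results.MP_227466_an.FewTriads
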