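import Pool.Agent.H88NS.Main

/-!
# Steady Navier-Stokes fields of exponential type: smallness along one ray forces `v = 0`

A bounded steady Navier-Stokes field with an entire extension of exponential type vanishes as
soon as, on ONE ray, it is small in the scale invariant `L³` sense on a divergent series of
non-overlapping balls.
-/

open MeasureTheory Set Filter Metric Topology

namespace Pool.Agent.Results.MP_227466_an.OneRay

/-- Euclidean three space. -/
abbrev R3 := EuclideanSpace ℝ (Fin 3)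

/-- Complex three space with its Hermitian norm. -/
abbrev C3 := EuclideanSpace ℂ (Fin 3)

/-- The derivative `∂ f / ∂ x_j`. -/
noncomputable def pd (j : Fin 3) (f : R3 → ℝ) : R3 → ℝ :=
  fun x => fderiv ℝ f x (EuclideanSpace.single j (1 : ℝ))

/-- `(v, p)` solves the steady incompressible Navier-Stokes system on `ℝ³` with viscosity `ν`:
`div v = 0` and `- ν Δ v + (v · ∇) v + ∇ p = 0`. -/
structure SteadyNS (ν : ℝ) (v : R3 → R3) (p : R3 → ℝ) : Prop where
  divFree : ∀ x, ∑ j, pd j (fun y => v y j) x = 0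
  momentum : ∀ x i, -ν * ∑ j, pd j (pd j (fun y => v y i)) x +
    ∑ j, v x j * pd j (fun y => v y i) x + pd i p x = 0

/-- The point of `ℂ³` given by a point of `ℝ³`. -/
noncomputable def toC3 (x : R3) : C3 := WithLp.toLp 2 fun j => (x j : ℂ)

/-- `v` has an entire extension `V` to `ℂ³` of exponential type:
`V = v` on `ℝ³` and `|V z| ≤ C exp (A |z|)`. -/
def HasExpTypeExtension (v : R3 → R3) : Prop :=
  ∃ V : C3 → C3, AnalyticOnNhd ℂ V univ ∧ (∀ x i, V (toC3 x) i = (v x i : ℂ)) ∧
    ∃ C A : ℝ, ∀ z, ‖V z‖ ≤ C * Real.exp (A * ‖z‖)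

/-- The `L³` mass of `v` on the closed ball `B(y, r)`. -/
noncomputable def mass (v : R3 → R3) (y : R3) (r : ℝ) : ℝ := ∫ z in closedBall y r, ‖v z‖ ^ 3

/-- Let `v` be a bounded steady Navier-Stokes field with an entire extension of exponential type,
and fix one ray, from `x0` in the direction of the unit vector `e`.

* If there are non-overlapping balls `B(x0 + t_i e, ρ_i)`, `t_i ≥ 1`, `0 < ρ_i ≤ t_i`, such that
  the series of `(ρ_i / t_i)² / (1 + ∫_{B(x0 + t_i e, ρ_i)} |v|³)` diverges, then `v = 0`.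
* If `∫_{B(x0 + t e, c t)} |v|³` does not tend to infinity as `t → ∞`, for one `c > 0`,
  then `v = 0`. -/
theorem result {ν : ℝ} (hν : 0 < ν) (v : R3 → R3) (p : R3 → ℝ) (hp : Differentiable ℝ p)
    (hNS : SteadyNS ν v p) (hbdd : ∃ M : ℝ, ∀ x, ‖v x‖ ≤ M) (hext : HasExpTypeExtension v)
    (x0 e : R3) (he : ‖e‖ = 1) :
    (∀ t ρ : ℕ → ℝ, (∀ i, 1 ≤ t i) → (∀ i, 0 < ρ i) → (∀ i, ρ i ≤ t i) →
      (∀ i j, i ≠ j → ρ i + ρ j ≤ |t i - t j|) →
      (¬ Summable fun i => (ρ i / t i) ^ 2 / (1 + mass v (x0 + t i • e) (ρ i))) →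
      ∀ z, v z = 0) ∧
    (∀ c : ℝ, 0 < c →
      (¬ Tendsto (fun t : ℝ => mass v (x0 + t • e) (c * t)) atTop atTop) →
      ∀ z, v z = 0) := by
  have hfirst : ∀ t ρ : ℕ → ℝ, (∀ i, 1 ≤ t i) → (∀ i, 0 < ρ i) → (∀ i, ρ i ≤ t i) →
      (∀ i j, i ≠ j → ρ i + ρ j ≤ |t i - t j|) →
      (¬ Summable fun i => (ρ i / t i) ^ 2 / (1 + mass v (x0 + t i • e) (ρ i))) →
      ∀ z, v z = 0 := fun t ρ ht hρ hρt hsep hsum =>
    H88NS.main2 hν v p hp hNS.divFree hNS.momentum hext hbdd x0 e he t ρ ht hρ hρt hsep hsum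
  refine ⟨hfirst, fun c hc hnot => ?_⟩
  obtain ⟨M, hM⟩ := hbdd
  obtain ⟨V, hV, hVv, -⟩ := hext
  have hvc : Continuous v := by
    have h1 : Continuous (fun y => WithLp.toLp 2 (fun i => v y i)) :=
      (PiLp.continuous_toLp 2 _).comp
        (continuous_pi fun i => (H88NS.smooth_of_ext hV hVv i).continuous)
    exact h1
  have hg : Continuous fun z => ‖v z‖ ^ 3 := hvc.norm.pow 3
  have hint : ∀ y r, IntegrableOn (fun z => ‖v z‖ ^ 3) (closedBall y r) := fun y r =>
    hg.continuousOn.integrableOn_compact (isCompact_closedBall _ _)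
  have hg0 : ∀ z, 0 ≤ ‖v z‖ ^ 3 := fun z => by positivity
  -- arbitrarily far points with bounded mass
  have hfar : ∃ K : ℝ, ∀ T : ℝ, ∃ s : ℝ, T ≤ s ∧ mass v (x0 + s • e) (c * s) < K := by
    rw [Filter.tendsto_atTop] at hnot
    push Not at hnot
    obtain ⟨K, hK⟩ := hnot
    refine ⟨K, fun T => ?_⟩
    have h1 := (hK.and_eventually (eventually_ge_atTop T)).exists
    obtain ⟨s, hs1, hs2⟩ := h1
    exact ⟨s, hs2, by simpa using hs1⟩
  obtain ⟨K, hK⟩ := hfar
  choose f hf1 hf2 using hK
  have hK0 : 0 < K := lt_of_le_of_lt (integral_nonneg fun z => hg0 z) (hf2 0)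
  -- the lacunary sequence
  let t : ℕ → ℝ := fun n => Nat.rec (f 1) (fun _ s => f (2 * s)) n
  have ht0 : t 0 = f 1 := rfl
  have hts : ∀ n, t (n + 1) = f (2 * t n) := fun n => rfl
  have ht1 : ∀ n, 1 ≤ t n := by
    intro n
    induction n with
    | zero => rw [ht0]; exact hf1 1
    | succ n ih => rw [hts]; have := hf1 (2 * t n); linarith
  have ht2 : ∀ n, 2 * t n ≤ t (n + 1) := fun n => by rw [hts]; exact hf1 _
  have hmass : ∀ n, mass v (x0 + t n • e) (c * t n) ≤ K := by
    intro n
    cases n with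
    | zero => rw [ht0]; exact (hf2 1).le
    | succ n => rw [hts]; exact (hf2 _).le
  have hmono : ∀ m n, m < n → 2 * t m ≤ t n := by
    intro m n hmn
    induction n, hmn using Nat.le_induction with
    | base => exact ht2 m
    | succ n hn ih => have h1 := ht2 n; have h2 := ht1 n; linarith
  set c' : ℝ := min c (1 / 4) with hc'
  have hc'0 : 0 < c' := lt_min hc (by norm_num)
  have hc'1 : c' ≤ 1 / 4 := min_le_right _ _
  have hc'2 : c' ≤ c := min_le_left _ _
  have htpos : ∀ n, 0 < t n := fun n => by linarith [ht1 n]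
  refine hfirst t (fun n => c' * t n) ht1 (fun n => mul_pos hc'0 (htpos n)) (fun n => ?_)
    (fun i j hij => ?_) ?_
  · have := htpos n
    nlinarith
  · have hpi := htpos i
    have hpj := htpos j
    have h1 : c' * t i + c' * t j ≤ 1 / 4 * (t i + t j) := by nlinarith
    rcases lt_or_gt_of_ne hij with h | h
    · have h2 := hmono i j h
      have h3 : t j - t i ≤ |t i - t j| := by
        rw [abs_sub_comm]
        exact le_abs_self _
      linarith
    · have h2 := hmono j i h
      have h3 : t i - t j ≤ |t i - t j| := le_abs_self _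
      linarith
  · intro hsum
    have hlim := hsum.tendsto_atTop_zero
    have hlow : ∀ n, c' ^ 2 / (1 + K) ≤
        (c' * t n / t n) ^ 2 / (1 + mass v (x0 + t n • e) (c' * t n)) := by
      intro n
      have hpn := htpos n
      rw [mul_div_assoc, div_self hpn.ne', mul_one]
      have h1 : mass v (x0 + t n • e) (c' * t n) ≤ K := by
        refine le_trans ?_ (hmass n)
        refine setIntegral_mono_set (hint _ _) (Eventually.of_forall hg0)
          (Eventually.of_forall ?_)
        exact closedBall_subset_closedBall (mul_le_mul_of_nonneg_right hc'2 hpn.le)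
      have h2 : 0 ≤ mass v (x0 + t n • e) (c' * t n) := integral_nonneg fun z => hg0 z
      gcongr
    have h1 : c' ^ 2 / (1 + K) ≤ 0 := ge_of_tendsto' hlim hlow
    have h2 : 0 < c' ^ 2 / (1 + K) := by positivity
    linarith

end Pool.Agent.Results.MP_227466_an.OneRay
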