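import Pool.Agent.SNS.Fin

/-!
# Steady Navier-Stokes D-solutions: an inequality between low and high frequencies

For a steady Navier-Stokes field which vanishes at infinity and has a finite Dirichlet integral,
the high frequency part of the Dirichlet integral is controlled by low frequency quantities. The
field vanishes if the low frequencies are tame along ONE sequence of wave numbers tending to zero,
or if its Fourier transform misses shells close to the origin.
-/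

open MeasureTheory Set Filter Topology
open scoped ContDiff

namespace Pool.Agent.Results.MP_227466_an.SpectralGap

/-- Euclidean three space. -/
abbrev R3 := EuclideanSpace ℝ (Fin 3)

/-- Complex three space with its Hermitian norm. -/
abbrev C3 := EuclideanSpace ℂ (Fin 3)

/-- The derivative `∂ f / ∂ x_j`. -/
noncomputable def pd (j : Fin 3) (f : R3 → ℝ) : R3 → ℝ :=
  fun x => fderiv ℝ f x (EuclideanSpace.single j (1 : ℝ))

/-- `(v, p)` solves the steady incompressible Navier-Stokes system on `ℝ³` with viscosity `ν`: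
`div v = 0` and `- ν Δ v + (v · ∇) v + ∇ p = 0`. -/
structure SteadyNS (ν : ℝ) (v : R3 → R3) (p : R3 → ℝ) : Prop where
  divFree : ∀ x, ∑ j, pd j (fun y => v y j) x = 0
  momentum : ∀ x i, -ν * ∑ j, pd j (pd j (fun y => v y i)) x +
    ∑ j, v x j * pd j (fun y => v y i) x + pd i p x = 0

/-- All first derivatives of `v` are square integrable (finite Dirichlet integral). -/
def FiniteDirichlet (v : R3 → R3) : Prop :=
  ∀ i j, MemLp (pd i (fun y => v y j)) 2 volume

/-- The character `exp (2 π i x · ξ)`. -/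
noncomputable def ch (x ξ : R3) : ℂ :=
  Complex.exp (2 * Real.pi * Complex.I * ∑ j, (x j : ℂ) * (ξ j : ℂ))

/-- `V` is the Fourier transform of `v`: it is integrable and
`v_j(x) = ∫ V_j(ξ) exp (2 π i x · ξ) dξ` for all `x`. -/
def IsSpectrum (v : R3 → R3) (V : R3 → C3) : Prop :=
  Integrable V ∧ ∀ x j, (v x j : ℂ) = ∫ ξ, V ξ j * ch x ξ

/-- The density `|ξ|² |V(ξ)|²` of the Dirichlet integral. -/
noncomputable def energy (V : R3 → C3) (ξ : R3) : ℝ := ‖ξ‖ ^ 2 * ‖V ξ‖ ^ 2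

/-- `|ξ|² |V|²` is integrable. -/
def FiniteEnergy (V : R3 → C3) : Prop := Integrable (energy V)

/-- `∫_{|ξ| < k} |ξ|² |V|²` -/
noncomputable def low (V : R3 → C3) (k : ℝ) : ℝ := ∫ ξ in {ξ | ‖ξ‖ < k}, energy V ξ

/-- `∫_{|ξ| ≥ k} |ξ|² |V|²` -/
noncomputable def high (V : R3 → C3) (k : ℝ) : ℝ := ∫ ξ in {ξ | k ≤ ‖ξ‖}, energy V ξ

/-- `∫_{|ξ| ≥ k} |V|²` -/
noncomputable def mass (V : R3 → C3) (k : ℝ) : ℝ := ∫ ξ in {ξ | k ≤ ‖ξ‖}, ‖V ξ‖ ^ 2

/-- The inequality `ν high(k) ≤ k^{3/2} low(k)^{1/2} mass(k/2)`. -/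
def Bound (ν : ℝ) (V : R3 → C3) (k : ℝ) : Prop :=
  ν * high V k ≤ k ^ (3 / 2 : ℝ) * Real.sqrt (low V k) * mass V (k / 2)

/-- `V` vanishes (a.e.) on the shell `a < |ξ| < b`. -/
def Free (V : R3 → C3) (a b : ℝ) : Prop :=
  ∀ᵐ ξ : R3, a < ‖ξ‖ → ‖ξ‖ < b → V ξ = 0

/-- `V` vanishes (a.e.) outside the ball of radius `ε`. -/
def Inside (V : R3 → C3) (ε : ℝ) : Prop := ∀ᵐ ξ : R3, ε < ‖ξ‖ → V ξ = 0

/-- `k^{3/2} mass(k)` is bounded along some sequence `k → 0+`. -/
def TameMass (V : R3 → C3) : Prop :=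
  ∃ C : ℝ, ∃ᶠ k : ℝ in 𝓝[>] 0, k ^ (3 / 2 : ℝ) * mass V k ≤ C

/-- `low(k) / k` is bounded along some sequence `k → 0+`. -/
def TameLow (V : R3 → C3) : Prop :=
  ∃ C : ℝ, ∃ᶠ k : ℝ in 𝓝[>] 0, low V k ≤ C * k

/-- For one `C > 0` the shells `k < |ξ| < C k^{3/4}` are free along some sequence `k → 0+`. -/
def TameShells (V : R3 → C3) : Prop :=
  ∃ C : ℝ, 0 < C ∧ ∃ᶠ k : ℝ in 𝓝[>] 0, Free V k (C * k ^ (3 / 4 : ℝ))

/-- The shell `ε < |ξ| < δ` is free and `(2 ε)^{3/2} low(ε)^{1/2} < ν δ²`. -/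
def Gap (ν : ℝ) (V : R3 → C3) (ε δ : ℝ) : Prop :=
  Free V ε δ ∧ (2 * ε) ^ (3 / 2 : ℝ) * Real.sqrt (low V ε) < ν * δ ^ 2

/-- Let `v` be a steady Navier-Stokes field which tends to zero at infinity and has a finite
Dirichlet integral. It has a Fourier transform `V` (integrable, unique a.e.), and:

* `|ξ|² |V|²` is integrable and `ν high(k) ≤ k^{3/2} low(k)^{1/2} mass(k/2)` for every `k > 0`;
* `v = 0` in each of the following cases, where `k` runs over SOME sequence tending to zero: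
  `k^{3/2} mass(k)` is bounded; or `low(k) / k` is bounded; or for one `C > 0` `V` vanishes on
  the shells `k < |ξ| < C k^{3/4}`;
* if `V` vanishes on ONE shell `ε < |ξ| < δ` with `δ ≥ 2 ε` and
  `(2 ε)^{3/2} low(ε)^{1/2} < ν δ²`, then it vanishes on `|ξ| > ε`. -/
theorem result {ν : ℝ} (hν : 0 < ν) (v : R3 → R3) (p : R3 → ℝ) (hv : ContDiff ℝ 2 v)
    (hp : Differentiable ℝ p) (hNS : SteadyNS ν v p) (h1 : Tendsto v (cocompact R3) (𝓝 0))
    (h2 : FiniteDirichlet v) :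
    (∃ V, IsSpectrum v V) ∧ ∀ V, IsSpectrum v V →
      FiniteEnergy V ∧ (∀ k : ℝ, 0 < k → Bound ν V k) ∧
      (TameMass V ∨ TameLow V ∨ TameShells V → ∀ x, v x = 0) ∧
      (∀ ε δ : ℝ, 0 < ε → 2 * ε ≤ δ → Gap ν V ε δ → Inside V ε) := by
  have hNS' : SNS.SteadyNS ν v p := ⟨hNS.divFree, hNS.momentum⟩
  have h2' : ∀ i j, MemLp (SNS.G v i j) 2 (volume : Measure SNS.E) := fun i j => (h2 i j).ofReal
  have hI : SNS.COR.Ineq (2 * Real.pi * ν) (SNS.dens v h2') :=
    SNS.MAIN.ineq hν hv hp hNS' h1 h2'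
  have hch : ∀ (W : R3 → ℂ) (x : R3), FourierTransformInv.fourierInv W x = ∫ ξ, W ξ * ch x ξ := by
    intro W x
    rw [Real.fourierInv_eq']
    refine integral_congr_ae (Eventually.of_forall fun ξ => ?_)
    simp only [smul_eq_mul]
    rw [mul_comm]
    congr 1
    unfold ch
    congr 1
    rw [PiLp.inner_apply]
    simp only [RCLike.inner_apply, conj_trivial]
    push_cast
    ring
  refine ⟨?_, fun V hV => ?_⟩
  · obtain ⟨V, hV, -, hinv⟩ := SNS.FIN.exists_spectrum hν hv hp hNS' h1 h2'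
    exact ⟨V, hV.int, fun x j => by rw [hinv j x, hch]⟩
  · have hd := SNS.FIN.dens_ae hν hv hp hNS' h1 h2' hV.1 (fun j x => by rw [hV.2 x j, hch])
    have hi := SNS.FIN.en_integrable h2' hd
    have hn := SNS.FIN.en_nonneg V
    have hE := SNS.FIN.ineq_en h2' hd hI
    have hz : ∫ ξ, SNS.FIN.en V ξ = 0 → ∀ x, v x = 0 := by
      intro h
      refine SNS.MAIN.zero_of_dens hv h1 h2' ?_
      rw [integral_congr_ae hd, integral_const_mul, h, mul_zero]
    have h0 : ∀ᵐ ξ : R3, ξ ≠ 0 := (ae_iff).2 (by simp)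
    refine ⟨hi, fun k hk => ?_, fun h => hz ?_, fun ε δ hε hδ hg => ?_⟩
    · have h := hE k hk
      rw [SNS.FIN.en_div V (by positivity)] at h
      exact h
    · rcases h with ⟨C, h⟩ | ⟨C, h⟩ | ⟨C, hC, h⟩
      · refine SNS.COR.zero_of_mass (C := C) hν hn hi hE ?_
        refine (h.and_eventually self_mem_nhdsWithin).mono fun k hk => ?_
        rw [SNS.FIN.en_div V hk.2]
        exact hk.1
      · exact SNS.COR.zero_of_low hν hn hi hE h
      · refine SNS.COR.zero_of_shells hν hn hi hE hC (h.mono fun k hk => ?_)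
        filter_upwards [hk] with ξ hξ h3 h4
        unfold SNS.FIN.en
        rw [hξ h3 h4, norm_zero]
        ring
    · have h3 := SNS.COR.gap hν hn hi hE hε hδ (by
        filter_upwards [hg.1] with ξ hξ h3 h4
        unfold SNS.FIN.en
        rw [hξ h3 h4, norm_zero]
        ring) hg.2
      filter_upwards [h3, h0] with ξ h4 h5 h6
      have h7 := h4 h6
      unfold SNS.FIN.en at h7
      have h8 : ‖ξ‖ ^ 2 ≠ 0 := pow_ne_zero _ (norm_ne_zero_iff.2 h5)
      have h9 := (mul_eq_zero.1 h7).resolve_left h8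
      exact norm_eq_zero.1 (pow_eq_zero_iff (two_ne_zero) |>.1 h9)

end Pool.Agent.Results.MP_227466_an.SpectralGap
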